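import Mathlib

/-!
# Project HP (MP_f702fa_pr): longest monotone subsequences of random high-dimensional permutations

Definitions and statements of the parts.
-/

set_option autoImplicit false

namespace Pool.Agent.Y993.HP

open Finset

/-! ## Definitions -/

/-- mean of a function on a finite set (uniform measure) -/
noncomputable def Ex {Ω : Type} [Fintype Ω] (F : Ω → ℝ) : ℝ := (∑ ω, F ω) / (Fintype.card Ω : ℝ)

open Classical in
/-- probability of an event (uniform measure) -/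
noncomputable def Pr {Ω : Type} [Fintype Ω] (E : Ω → Prop) : ℝ :=
  Ex (fun ω => if E ω then (1 : ℝ) else 0)

/-- positions of a `d`-dimensional array of order `n` -/
abbrev Pt (d n : ℕ) : Type := Fin d → Fin n

/-- labels: `u (i, x)` is the label of the value `x` of the `i`-th coordinate -/
abbrev Lab (d n N : ℕ) : Type := Fin d × Fin n → Fin N

/-- support of an order-`n` `(d-1)`-dimensional permutation: exactly one point on every line -/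
def IsPerm {d n : ℕ} (A : Finset (Pt d n)) : Prop :=
  ∀ (i : Fin d) (α : Pt d n), ∃! x : Fin n, Function.update α i x ∈ A

/-- `C` is a (strict) chain for the labels `u` -/
def IsCh {d n N : ℕ} (u : Lab d n N) (C : Finset (Pt d n)) : Prop :=
  ∀ p ∈ C, ∀ q ∈ C, p ≠ q → (∀ i, u (i, p i) < u (i, q i)) ∨ (∀ i, u (i, q i) < u (i, p i))

open Classical in
/-- length of the longest chain in `X` -/
noncomputable def lg {d n N : ℕ} (u : Lab d n N) (X : Finset (Pt d n)) : ℕ :=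
  (X.powerset.filter (fun C => IsCh u C)).sup Finset.card

open Classical in
/-- the points of `A` with labels in the box `∏ I i` -/
noncomputable def pts {d n N : ℕ} (A : Finset (Pt d n)) (I : Fin d → Finset (Fin N))
    (u : Lab d n N) : Finset (Pt d n) :=
  A.filter (fun p => ∀ i, u (i, p i) ∈ I i)

/-- longest chain in a box, truncated at `L` -/
noncomputable def zz {d n N : ℕ} (A : Finset (Pt d n)) (I : Fin d → Finset (Fin N)) (L : ℕ)
    (u : Lab d n N) : ℕ := min (lg u (pts A I u)) L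

/-- side length of a box -/
noncomputable def sd {d N : ℕ} (I : Fin d → Finset (Fin N)) (i : Fin d) : ℝ := ((I i).card : ℝ) / N

/-- volume of a box -/
noncomputable def wt {d N : ℕ} (I : Fin d → Finset (Fin N)) : ℝ := ∏ i, sd I i

/-- `n ^ (k / (k+1))` -/
noncomputable def mm (k n : ℕ) : ℝ := (n : ℝ) ^ ((k : ℝ) / ((k : ℝ) + 1))

/-- mean of `min (longest chain) L` for `r` points with `d` independent uniform orders -/
noncomputable def eL (d L r : ℕ) : ℝ :=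
  Ex (fun s : Fin d → Equiv.Perm (Fin r) =>
    ((min (lg (fun x : Fin d × Fin r => s x.1 x.2)
      (Finset.univ.image (fun a : Fin r => (fun _ : Fin d => a)))) L : ℕ) : ℝ))

/-- Newton coefficient -/
noncomputable def nd (f : ℕ → ℝ) (j : ℕ) : ℝ :=
  ∑ i ∈ range (j + 1), (-1 : ℝ) ^ (j - i) * (j.choose i : ℝ) * f i

/-- the local limit `∑ κ^j/j! Δ^j e(0)` (mean for a Poisson number of points with mean `κ`) -/
noncomputable def gL (d L : ℕ) (κ : ℝ) : ℝ := ∑' j : ℕ, κ ^ j / (j.factorial : ℝ) * nd (eL d L) j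

/-- no two points share a coordinate -/
def Gen {d n : ℕ} (X : Finset (Pt d n)) : Prop := ∀ p ∈ X, ∀ q ∈ X, p ≠ q → ∀ i, p i ≠ q i

/-- no two labels of the same direction agree -/
def NoTie {d n N : ℕ} (u : Lab d n N) : Prop := ∀ i, Function.Injective (fun x => u (i, x))

/-- probability that all the points of `B` are in the box -/
noncomputable def PB {d n N : ℕ} (I : Fin d → Finset (Fin N)) (B : Finset (Pt d n)) : ℝ :=
  ∏ i, sd I i ^ (B.image (fun p => p i)).card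

open Classical in
/-- number of generic `j`-subsets of the points in the box -/
noncomputable def Mj {d n N : ℕ} (A : Finset (Pt d n)) (I : Fin d → Finset (Fin N)) (j : ℕ)
    (u : Lab d n N) : ℕ :=
  (((pts A I u).powersetCard j).filter (fun T => Gen T)).card

/-- the labels in the `j`-th gap of a set `S` of cells -/
def gap {N G : ℕ} (cl : Fin N → Fin G) (S : Finset (Fin G)) (j : ℕ) : Finset (Fin N) :=
  Finset.univ.filter (fun a => cl a ∉ S ∧ (S.filter (fun s => s < cl a)).card = j)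

/-- longest monotone subsequence (every coordinate strictly increasing or strictly decreasing) -/
noncomputable def HH {d n : ℕ} (A : Finset (Pt d n)) : ℕ :=
  sSup {m : ℕ | ∃ f : Fin m → Pt d n, (∀ a, f a ∈ A) ∧
    ∀ j, StrictMono (fun a => f a j) ∨ StrictAnti (fun a => f a j)}

open Classical in
/-- all `(d-1)`-dimensional permutations of order `n` (supports) -/
noncomputable def LL (d n : ℕ) : Finset (Finset (Pt d n)) :=
  Finset.univ.filter (fun A => IsPerm A)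

/-! ## General tools -/

/-- HP-CARD: cardinalities. -/
def S_CARD : Prop := ∀ (k n : ℕ) (A : Finset (Pt (k + 1) n)), 1 ≤ n → IsPerm A →
  A.card = n ^ k ∧
  ∀ (S : Finset (Fin (k + 1))) (α : Pt (k + 1) n),
    (A.filter (fun p => ∀ i ∈ S, p i = α i)).card ≤ n ^ (k - S.card)

/-- HP-NA: negative dependence of monotone functions of disjoint ranges of labels. -/
def S_NA : Prop := ∀ (ι Λ J : Type) [Fintype ι] [DecidableEq ι] [Fintype Λ] [DecidableEq Λ]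
    [Nonempty Λ] [Fintype J] (I : J → ι → Finset Λ) (F : J → (ι → Λ) → ℝ),
  (∀ x j j', j ≠ j' → Disjoint (I j x) (I j' x)) → (∀ j u, 0 ≤ F j u) →
  (∀ j u x a, u x ∉ I j x → F j u ≤ F j (Function.update u x a)) →
  Ex (fun u => ∏ j, F j u) ≤ ∏ j, Ex (F j)

/-- HP-NAZ: negative dependence of the longest chains in boxes with disjoint sides. -/
def S_NAZ : Prop := ∀ (d n N L r : ℕ) (A : Finset (Pt d n)) (I : Fin r → Fin d → Finset (Fin N)),
  0 < N → (∀ i j j', j ≠ j' → Disjoint (I j i) (I j' i)) →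
  (∀ lam : ℝ, 0 ≤ lam →
    Ex (fun u : Lab d n N => Real.exp (lam * ∑ j, (zz A (I j) L u : ℝ))) ≤
      ∏ j, Ex (fun u : Lab d n N => Real.exp (lam * (zz A (I j) L u : ℝ)))) ∧
  (∀ j j', j ≠ j' →
    Ex (fun u : Lab d n N => (zz A (I j) L u : ℝ) * (zz A (I j') L u : ℝ)) ≤
      Ex (fun u : Lab d n N => (zz A (I j) L u : ℝ)) *
        Ex (fun u : Lab d n N => (zz A (I j') L u : ℝ)))

/-- HP-ES: the inequality of Efron and Stein. -/
def S_ES : Prop := ∀ (ι Λ : Type) [Fintype ι] [DecidableEq ι] [Fintype Λ] [Nonempty Λ]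
    (Z : (ι → Λ) → ℝ) (Y : ι → (ι → Λ) → ℝ),
  (∀ x u a, Y x (Function.update u x a) = Y x u) →
  Ex (fun u => (Z u - Ex Z) ^ 2) ≤ ∑ x, Ex (fun u => (Z u - Y x u) ^ 2)

/-- HP-VAR: variance of the longest chain in a box. -/
def S_VAR : Prop := ∀ (d n N L : ℕ) (A : Finset (Pt d n)) (I : Fin d → Finset (Fin N)), 0 < N →
  Ex (fun u : Lab d n N => ((zz A I L u : ℝ) - Ex (fun u : Lab d n N => (zz A I L u : ℝ))) ^ 2) ≤
    d * Ex (fun u : Lab d n N => (zz A I L u : ℝ))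

/-- HP-FM: first moment bound. -/
def S_FM : Prop := ∀ (d n N b : ℕ) (A : Finset (Pt d n)) (i0 : Fin d) (U : Finset (Fin N)), 0 < N →
  Pr (fun u : Lab d n N => ∃ C ⊆ A, C.card = b ∧ IsCh u C ∧ ∀ p ∈ C, u (i0, p i0) ∈ U) ≤
    (A.card : ℝ) ^ b * ((U.card : ℝ) / N) ^ b / (b.factorial : ℝ) ^ d

/-- HP-CUT: cutting a long chain into pieces contained in boxes with disjoint sides. -/
def S_CUT : Prop := ∀ (d n N G L t b H : ℕ) (A : Finset (Pt d n)) (cl : Fin N → Fin G)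
    (u : Lab d n N), 1 ≤ d → Monotone cl → 1 ≤ t → t ≤ L →
  (∃ C ⊆ A, C.card = H ∧ IsCh u C) →
  (∃ i : Fin d, ∃ U : Finset (Fin G), U.card * t ≤ H ∧
    ∃ C ⊆ A, C.card = b ∧ IsCh u C ∧ ∀ p ∈ C, cl (u (i, p i)) ∈ U) ∨
  (∃ (S : Fin d → Finset (Fin G)) (r : ℕ), (∀ i, (S i).card = r) ∧ r * L ≤ H ∧
    H ≤ d * b + d * r * t + ∑ j ∈ range (r + 1), zz A (fun i => gap cl (S i) j) L u)

/-! ## Transfer -/

/-- HP-TR: from labels to uniform permutations. -/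
def S_TR : Prop := ∀ (d n N : ℕ) (A : Finset (Pt d n)) (E : ℕ → Prop), 1 ≤ n →
  2 * d * n ^ 2 ≤ N → 0 < N →
  Pr (fun s : Fin d → Equiv.Perm (Fin n) => E (lg (fun x : Fin d × Fin n => s x.1 x.2) A)) ≤
    2 * Pr (fun u : Lab d n N => E (lg u A))

/-- HP-ISO: from uniform relabellings to uniform `(d-1)`-dimensional permutations. -/
def S_ISO : Prop := ∀ (d n lo hi : ℕ) (q : ℝ), 1 ≤ d → 1 ≤ n →
  (∀ A ∈ LL d n,
    Pr (fun s : Fin d → Equiv.Perm (Fin n) => lg (fun x : Fin d × Fin n => s x.1 x.2) A < lo) ≤ q ∧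
    Pr (fun s : Fin d → Equiv.Perm (Fin n) => hi ≤ lg (fun x : Fin d × Fin n => s x.1 x.2) A) ≤ q) →
  (((LL d n).filter (fun A => HH A < lo ∨ hi ≤ HH A)).card : ℝ) ≤
    ((2 : ℝ) ^ d + 1) * q * ((LL d n).card : ℝ)

/-- HP-EXI: there are `(d-1)`-dimensional permutations. -/
def S_EXI : Prop := ∀ (k n : ℕ), 1 ≤ k → 1 ≤ n → ∃ A : Finset (Pt (k + 1) n), IsPerm A

/-! ## Local limit -/

/-- HP-NEWT: Newton expansion with remainder. -/
def S_NEWT : Prop := ∀ (f : ℕ → ℝ) (B : ℝ), (∀ m, |f m| ≤ B) → ∀ m J : ℕ,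
  |f m - ∑ j ∈ range J, nd f j * (m.choose j : ℝ)| ≤ 2 ^ J * B * (m.choose J : ℝ)

/-- HP-PROB: probability that given points are in the box. -/
def S_PROB : Prop := ∀ (d n N : ℕ) (A B : Finset (Pt d n)) (I : Fin d → Finset (Fin N)), 0 < N →
  B ⊆ A → Pr (fun u : Lab d n N => B ⊆ pts A I u) = PB I B

/-- HP-ADD: adding one point. -/
def S_ADD : Prop := ∀ (k n N : ℕ) (C : ℝ) (A B : Finset (Pt (k + 1) n))
    (I : Fin (k + 1) → Finset (Fin N)), 1 ≤ n → 0 < N → 0 ≤ C → IsPerm A → B ⊆ A →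
  (∀ i, sd I i * mm k n ≤ C) →
  ∑ q ∈ A, PB I (insert q B) ≤ ((B.card : ℝ) + C) ^ (k + 1) * PB I B

/-- HP-PAIR: pairs of points which share a coordinate. -/
def S_PAIR : Prop := ∀ (k : ℕ) (C : ℝ), 1 ≤ k → 0 ≤ C → ∃ K : ℝ, 0 ≤ K ∧
  ∀ (n N : ℕ) (A : Finset (Pt (k + 1) n)) (I : Fin (k + 1) → Finset (Fin N)), 1 ≤ n → 0 < N →
    IsPerm A → (∀ i, sd I i * mm k n ≤ C) →
    ∑ z ∈ (A ×ˢ A).filter (fun z => z.1 ≠ z.2 ∧ ∃ i, z.1 i = z.2 i), PB I {z.1, z.2} ≤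
      K * (n : ℝ) ^ (-(1 / ((k : ℝ) + 1)))

open Classical in
/-- HP-NG: non-generic configurations do not contribute. -/
def S_NG : Prop := ∀ (k j : ℕ) (C : ℝ), 1 ≤ k → 0 ≤ C → ∃ K : ℝ, 0 ≤ K ∧
  ∀ (n N : ℕ) (A : Finset (Pt (k + 1) n)) (I : Fin (k + 1) → Finset (Fin N)), 1 ≤ n → 0 < N →
    IsPerm A → (∀ i, sd I i * mm k n ≤ C) →
    Ex (fun u : Lab (k + 1) n N =>
      if Gen (pts A I u) then (0 : ℝ) else ((pts A I u).card : ℝ) ^ j) ≤
      K * (n : ℝ) ^ (-(1 / ((k : ℝ) + 1)))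

/-- HP-GEN: mean number of generic `j`-subsets in the box. -/
def S_GEN : Prop := ∀ (k j : ℕ) (C : ℝ), 1 ≤ k → 0 ≤ C → ∃ K : ℝ, 0 ≤ K ∧
  ∀ (n N : ℕ) (A : Finset (Pt (k + 1) n)) (I : Fin (k + 1) → Finset (Fin N)), 1 ≤ n → 0 < N →
    IsPerm A → (∀ i, sd I i * mm k n ≤ C) →
    |Ex (fun u : Lab (k + 1) n N => (Mj A I j u : ℝ)) -
      ((n : ℝ) ^ k * wt I) ^ j / (j.factorial : ℝ)| ≤ K / n

open Classical in
/-- HP-EXCH: the relative order of the points in the box is uniform. -/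
def S_EXCH : Prop := ∀ (d n N L : ℕ) (A : Finset (Pt d n)) (I : Fin d → Finset (Fin N)),
  1 ≤ d → 0 < N →
  Ex (fun u : Lab d n N => if Gen (pts A I u) ∧ NoTie u then (zz A I L u : ℝ) else 0) =
  Ex (fun u : Lab d n N => if Gen (pts A I u) ∧ NoTie u then eL d L (pts A I u).card else 0)

/-- HP-TIE: ties are unlikely. -/
def S_TIE : Prop := ∀ (d n N : ℕ), 0 < N →
  Pr (fun u : Lab d n N => ¬ NoTie u) ≤ (d : ℝ) * (n : ℝ) ^ 2 / N

/-- HP-LOC: the local limit. -/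
def S_LOC : Prop := ∀ (k L : ℕ) (C κ δ : ℝ), 1 ≤ k → 0 ≤ C → 0 ≤ κ → 0 < δ →
  ∃ n0 : ℕ, ∃ δ' : ℝ, 0 < δ' ∧
  ∀ (n N : ℕ) (A : Finset (Pt (k + 1) n)) (I : Fin (k + 1) → Finset (Fin N)), n0 ≤ n → 0 < N →
    IsPerm A → n ^ 3 ≤ N → (∀ i, sd I i * mm k n ≤ C) → |(n : ℝ) ^ k * wt I - κ| ≤ δ' →
    |Ex (fun u : Lab (k + 1) n N => (zz A I L u : ℝ)) - gL (k + 1) L κ| ≤ δ

/-! ## Bounds for the longest chain in the label model -/

/-- HP-SB: exponential moment for one box. -/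
def S_SB : Prop := ∀ (k T : ℕ) (c ε a : ℝ), 1 ≤ k → 1 ≤ T → 0 < c → 0 < ε → 0 < a →
  (∀ (L : ℕ) (κ : ℝ), 0 < κ → gL (k + 1) L κ ≤ c * κ ^ (1 / ((k : ℝ) + 1))) →
  ∃ L0 : ℕ, ∀ L : ℕ, L0 ≤ L → 1 ≤ L → ∃ n0 : ℕ, ∀ n : ℕ, n0 ≤ n →
  ∀ (G M : ℕ) (A : Finset (Pt (k + 1) n)) (I : Fin (k + 1) → Finset (Fin (G * M))),
    G = ⌈(T : ℝ) * mm k n / L⌉₊ → n ^ 3 ≤ M → IsPerm A → (∀ i, ∃ g : ℕ, (I i).card = g * M) →
    Ex (fun u : Lab (k + 1) n (G * M) => Real.exp (a / L * (zz A I L u : ℝ))) ≤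
      Real.exp (a / L * (c * ((n : ℝ) ^ k * wt I) ^ (1 / ((k : ℝ) + 1)) + 2 * ε * L))

/-- HP-UP: upper bound. -/
def S_UP : Prop := ∀ (k : ℕ) (c ε : ℝ), 1 ≤ k → 0 < c → 0 < ε →
  (∀ (L : ℕ) (κ : ℝ), 0 < κ → gL (k + 1) L κ ≤ c * κ ^ (1 / ((k : ℝ) + 1))) →
  ∀ δ : ℝ, 0 < δ → ∃ n0 : ℕ, ∀ n : ℕ, n0 ≤ n → ∀ A : Finset (Pt (k + 1) n), IsPerm A →
  ∃ N : ℕ, 0 < N ∧ 2 * (k + 1) * n ^ 2 ≤ N ∧
    Pr (fun u : Lab (k + 1) n N => (c + ε) * mm k n ≤ (lg u A : ℝ)) ≤ δ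

/-- HP-LOW: lower bound. -/
def S_LOW : Prop := ∀ (k L : ℕ) (κ ε : ℝ), 1 ≤ k → 0 < κ → 0 < ε →
  ∀ δ : ℝ, 0 < δ → ∃ n0 : ℕ, ∀ n : ℕ, n0 ≤ n → ∀ A : Finset (Pt (k + 1) n), IsPerm A →
  ∃ N : ℕ, 0 < N ∧ 2 * (k + 1) * n ^ 2 ≤ N ∧
    Pr (fun u : Lab (k + 1) n N =>
      (lg u A : ℝ) ≤ (gL (k + 1) L κ / κ ^ (1 / ((k : ℝ) + 1)) - ε) * mm k n) ≤ δ

/-- HP-POS: the local limit is positive for `L = 1`. -/
def S_POS : Prop := ∀ (d : ℕ) (κ : ℝ), 1 ≤ d → 0 < κ → 0 < gL d 1 κ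

/-- HP-BDD: `gL` is at most a multiple of `κ^(1/(k+1))`. -/
def S_BDD : Prop := ∀ k : ℕ, 1 ≤ k → ∀ (L : ℕ) (κ : ℝ), 0 < κ →
  gL (k + 1) L κ ≤ 20 * κ ^ (1 / ((k : ℝ) + 1))

/-- The answer. -/
def S_FIN : Prop := ∀ k : ℕ, 1 ≤ k → ∃ c : ℝ, 0 < c ∧ ∀ ε : ℝ, 0 < ε → ∀ δ : ℝ, 0 < δ →
  ∃ n0 : ℕ, ∀ n : ℕ, n0 ≤ n →
    (((LL (k + 1) n).filter
      (fun A => ε < |(HH A : ℝ) * (n : ℝ) ^ (-((k : ℝ) / ((k : ℝ) + 1))) - c|)).card : ℝ) ≤
      δ * ((LL (k + 1) n).card : ℝ)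

end Pool.Agent.Y993.HP
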