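import Pool.Agent.Y993.HP.Base

/-! # Project HP: assembly of the answer -/

set_option autoImplicit false

namespace Pool.Agent.Y993.HP

open Finset Filter

theorem fin1 (hUP : S_UP) (hLOW : S_LOW) (hTR : S_TR) (hISO : S_ISO) (hPOS : S_POS)
    (hBDD : S_BDD) : S_FIN := by
  intro k hk
  set s : Set ℝ := {y | ∃ (L : ℕ) (κ : ℝ), 0 < κ ∧
    y = gL (k + 1) L κ / κ ^ (1 / ((k : ℝ) + 1))} with hs
  have hbdd : BddAbove s := by
    refine ⟨20, ?_⟩
    rintro y ⟨L, κ, hκ, rfl⟩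
    rw [div_le_iff₀ (Real.rpow_pos_of_pos hκ _)]
    exact hBDD k hk L κ hκ
  have hmem : ∀ (L : ℕ) (κ : ℝ), 0 < κ → gL (k + 1) L κ / κ ^ (1 / ((k : ℝ) + 1)) ∈ s :=
    fun L κ hκ => ⟨L, κ, hκ, rfl⟩
  have hne : s.Nonempty := ⟨_, hmem 1 1 one_pos⟩
  set c : ℝ := sSup s with hc
  have hc0 : 0 < c := by
    have h1 := le_csSup hbdd (hmem 1 1 one_pos)
    have h2 := hPOS (k + 1) 1 (by omega) one_pos
    rw [Real.one_rpow, div_one] at h1
    exact lt_of_lt_of_le h2 h1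
  have hg : ∀ (L : ℕ) (κ : ℝ), 0 < κ → gL (k + 1) L κ ≤ c * κ ^ (1 / ((k : ℝ) + 1)) := by
    intro L κ hκ
    have h1 := le_csSup hbdd (hmem L κ hκ)
    rwa [div_le_iff₀ (Real.rpow_pos_of_pos hκ _)] at h1
  refine ⟨c, hc0, fun ε hε δ hδ => ?_⟩
  set q : ℝ := δ / ((2 : ℝ) ^ (k + 1) + 1) with hq
  have hq0 : 0 < q := by rw [hq]; positivity
  obtain ⟨y, ⟨L, κ, hκ, rfl⟩, hy⟩ := exists_lt_of_lt_csSup hne (show c - ε / 4 < sSup s by linarith)
  obtain ⟨n1, h1⟩ := hUP k c (ε / 2) hk hc0 (by positivity) hg (q / 2) (by positivity)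
  obtain ⟨n2, h2⟩ := hLOW k L κ (ε / 4) hk hκ (by positivity) (q / 2) (by positivity)
  refine ⟨max (max n1 n2) 1, fun n hn => ?_⟩
  have hn1 : n1 ≤ n := ((le_max_left _ _).trans (le_max_left _ _)).trans hn
  have hn2 : n2 ≤ n := ((le_max_right _ _).trans (le_max_left _ _)).trans hn
  have hn3 : 1 ≤ n := (le_max_right _ _).trans hn
  have hm0 : 0 < mm k n := by
    unfold mm
    have : (0 : ℝ) < n := by exact_mod_cast hn3
    positivity
  have key : ∀ A ∈ LL (k + 1) n,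
      Pr (fun s : Fin (k + 1) → Equiv.Perm (Fin n) =>
        lg (fun x : Fin (k + 1) × Fin n => s x.1 x.2) A < ⌈(c - ε / 2) * mm k n⌉₊) ≤ q ∧
      Pr (fun s : Fin (k + 1) → Equiv.Perm (Fin n) =>
        ⌈(c + ε / 2) * mm k n⌉₊ ≤ lg (fun x : Fin (k + 1) × Fin n => s x.1 x.2) A) ≤ q := by
    intro A hA
    have hA' : IsPerm A := by
      have h0 := hA
      unfold LL at h0
      simp only [Finset.mem_filter, Finset.mem_univ, true_and] at h0
      exact h0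
    constructor
    · obtain ⟨N, hN0, hN1, hN2⟩ := h2 n hn2 A hA'
      have h3 := hTR (k + 1) n N A (fun l => (l : ℝ) ≤
        (gL (k + 1) L κ / κ ^ (1 / ((k : ℝ) + 1)) - ε / 4) * mm k n) hn3 hN1 hN0
      refine (Pr_mono ?_).trans (h3.trans (by linarith))
      intro s hs
      have h4 := Nat.lt_ceil.mp hs
      have h5 : (c - ε / 2) * mm k n ≤
          (gL (k + 1) L κ / κ ^ (1 / ((k : ℝ) + 1)) - ε / 4) * mm k n :=
        mul_le_mul_of_nonneg_right (by linarith) hm0.le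
      exact h4.le.trans h5
    · obtain ⟨N, hN0, hN1, hN2⟩ := h1 n hn1 A hA'
      have h3 := hTR (k + 1) n N A (fun l => (c + ε / 2) * mm k n ≤ (l : ℝ)) hn3 hN1 hN0
      refine (Pr_mono ?_).trans (h3.trans (by linarith))
      intro s hs
      exact Nat.ceil_le.mp hs
  have h3 := hISO (k + 1) n _ _ q (by omega) hn3 key
  have h4 : ((2 : ℝ) ^ (k + 1) + 1) * q = δ := by
    rw [hq]
    field_simp
  rw [h4] at h3
  refine le_trans ?_ h3
  have h5 : ((LL (k + 1) n).filter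
      (fun A => ε < |(HH A : ℝ) * (n : ℝ) ^ (-((k : ℝ) / ((k : ℝ) + 1))) - c|)).card ≤
      ((LL (k + 1) n).filter (fun A => HH A < ⌈(c - ε / 2) * mm k n⌉₊ ∨
        ⌈(c + ε / 2) * mm k n⌉₊ ≤ HH A)).card := by
    apply Finset.card_le_card
    intro A hA
    rw [Finset.mem_filter] at hA ⊢
    refine ⟨hA.1, ?_⟩
    have h6 := hA.2
    have h7 : (n : ℝ) ^ (-((k : ℝ) / ((k : ℝ) + 1))) = (mm k n)⁻¹ := by
      unfold mm
      rw [Real.rpow_neg (Nat.cast_nonneg n)]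
    rw [h7, lt_abs] at h6
    rcases h6 with h6 | h6
    · right
      apply Nat.ceil_le.mpr
      have h8 : c + ε < (HH A : ℝ) * (mm k n)⁻¹ := by linarith
      have h9 := mul_lt_mul_of_pos_right h8 hm0
      rw [mul_assoc, inv_mul_cancel₀ hm0.ne', mul_one] at h9
      nlinarith
    · left
      apply Nat.lt_ceil.mpr
      have h8 : (HH A : ℝ) * (mm k n)⁻¹ < c - ε := by linarith
      have h9 := mul_lt_mul_of_pos_right h8 hm0
      rw [mul_assoc, inv_mul_cancel₀ hm0.ne', mul_one] at h9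
      nlinarith
  exact_mod_cast h5

end Pool.Agent.Y993.HP
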