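import Pool.Agent.Y993.HP.UpMain
import Pool.Agent.Y993.HP.Fin
import Pool.Agent.Y10.HP.Card
import Pool.Agent.Y151.HP.Add
import Pool.Agent.Y151.HP.Gn
import Pool.Agent.Y237.HP.Tie
import Pool.Agent.Y275.HP.Low
import Pool.Agent.Y328.HP.SB
import Pool.Agent.Y385.HP.Pair
import Pool.Agent.Y390.HP.ISO
import Pool.Agent.Y401.HP.FM
import Pool.Agent.Y409.HP.Bdd
import Pool.Agent.Y409.HP.Newt
import Pool.Agent.Y469.HP.Avg
import Pool.Agent.Y469.HP.Var
import Pool.Agent.Y486.HP.Ng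
import Pool.Agent.Y495.HP.Cut
import Pool.Agent.Y794.HP.Exi
import Pool.Agent.Y855.HP.Naz
import Pool.Agent.Y855.HP.Prob
import Pool.Agent.Y930.HP.Loc
import Pool.Agent.Y945.HP.Tr
import Pool.Agent.Y994.HP.Exch

/-! # Project HP: all the parts together -/

set_option autoImplicit false

namespace Pool.Agent.Y993.HP

theorem h_card : S_CARD := Pool.Agent.Y10.HP.card
theorem h_na : S_NA := Pool.Agent.Y469.HP.na
theorem h_naz : S_NAZ := Pool.Agent.Y855.HP.naz h_na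
theorem h_es : S_ES := Pool.Agent.Y469.HP.es
theorem h_var : S_VAR := Pool.Agent.Y469.HP.var1 h_es
theorem h_fm : S_FM := Pool.Agent.Y401.HP.fm1
theorem h_cut : S_CUT := Pool.Agent.Y495.HP.cut
theorem h_tr : S_TR := Pool.Agent.Y945.HP.tr
theorem h_tie : S_TIE := Pool.Agent.Y237.HP.tie
theorem h_iso : S_ISO := Pool.Agent.Y390.HP.ISO.iso
theorem h_exi : S_EXI := Pool.Agent.Y794.HP.exi
theorem h_newt : S_NEWT := Pool.Agent.Y409.HP.newt
theorem h_prob : S_PROB := Pool.Agent.Y855.HP.prob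
theorem h_add : S_ADD := Pool.Agent.Y151.HP.add1 h_card
theorem h_pair : S_PAIR := Pool.Agent.Y385.HP.pair1 h_card
theorem h_ng : S_NG := Pool.Agent.Y486.HP.ng1 h_prob h_add h_pair
theorem h_gen : S_GEN := Pool.Agent.Y151.HP.gen1 h_card h_prob
theorem h_exch : S_EXCH := Pool.Agent.Y994.HP.exch1
theorem h_loc : S_LOC := Pool.Agent.Y930.HP.loc1 h_ng h_gen h_exch h_newt h_tie
theorem h_sb : S_SB := Pool.Agent.Y328.HP.sb1 h_loc h_var
theorem h_low : S_LOW := Pool.Agent.Y275.HP.low1 h_loc h_naz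
theorem h_pos : S_POS := Pool.Agent.Y794.HP.pos
theorem h_bdd : S_BDD := Pool.Agent.Y409.HP.bdd1 h_low h_fm h_exi h_card
theorem h_up : S_UP := up1 h_naz h_sb h_fm h_cut h_card

/-- The answer, for supports. -/
theorem h_fin : S_FIN := fin1 h_up h_low h_tr h_iso h_pos h_bdd

end Pool.Agent.Y993.HP
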