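import Pool.Agent.Y993.HP.Stm

/-! # Project HP: basic lemmas about means, probabilities and chains -/

set_option autoImplicit false

namespace Pool.Agent.Y993.HP

open Finset

section Ex
variable {Ω : Type} [Fintype Ω]

theorem Ex_nonneg {F : Ω → ℝ} (h : ∀ ω, 0 ≤ F ω) : 0 ≤ Ex F := by
  unfold Ex
  exact div_nonneg (Finset.sum_nonneg fun ω _ => h ω) (Nat.cast_nonneg _)

theorem Ex_mono {F F' : Ω → ℝ} (h : ∀ ω, F ω ≤ F' ω) : Ex F ≤ Ex F' := by
  unfold Ex
  exact div_le_div_of_nonneg_right (Finset.sum_le_sum fun ω _ => h ω) (Nat.cast_nonneg _)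

theorem Ex_add (F F' : Ω → ℝ) : Ex (fun ω => F ω + F' ω) = Ex F + Ex F' := by
  unfold Ex
  rw [Finset.sum_add_distrib, add_div]

theorem Ex_sub (F F' : Ω → ℝ) : Ex (fun ω => F ω - F' ω) = Ex F - Ex F' := by
  unfold Ex
  rw [Finset.sum_sub_distrib, sub_div]

theorem Ex_mul_left (a : ℝ) (F : Ω → ℝ) : Ex (fun ω => a * F ω) = a * Ex F := by
  unfold Ex
  rw [← Finset.mul_sum, mul_div_assoc]

theorem Ex_sum {ι : Type*} (s : Finset ι) (F : ι → Ω → ℝ) :
    Ex (fun ω => ∑ i ∈ s, F i ω) = ∑ i ∈ s, Ex (F i) := by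
  unfold Ex
  rw [Finset.sum_comm, Finset.sum_div]

theorem Ex_const [Nonempty Ω] (a : ℝ) : Ex (fun _ : Ω => a) = a := by
  unfold Ex
  rw [Finset.sum_const, Finset.card_univ, nsmul_eq_mul]
  have : (Fintype.card Ω : ℝ) ≠ 0 := by
    exact_mod_cast Fintype.card_ne_zero
  field_simp

theorem Ex_const_le (a : ℝ) (ha : 0 ≤ a) : Ex (fun _ : Ω => a) ≤ a := by
  rcases isEmpty_or_nonempty Ω with h | h
  · unfold Ex
    simp [ha]
  · rw [Ex_const]

theorem Pr_nonneg (E : Ω → Prop) : 0 ≤ Pr E := by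
  unfold Pr
  apply Ex_nonneg
  intro ω
  split_ifs <;> norm_num

theorem Pr_mono {E E' : Ω → Prop} (h : ∀ ω, E ω → E' ω) : Pr E ≤ Pr E' := by
  unfold Pr
  apply Ex_mono
  intro ω
  by_cases h1 : E ω
  · rw [if_pos h1, if_pos (h ω h1)]
  · rw [if_neg h1]
    split_ifs <;> norm_num

theorem Pr_le_one (E : Ω → Prop) : Pr E ≤ 1 := by
  unfold Pr
  refine (Ex_mono (F' := fun _ => (1:ℝ)) ?_).trans (Ex_const_le 1 zero_le_one)
  intro ω
  split_ifs <;> norm_num

theorem Pr_exists_le {ι : Type*} (s : Finset ι) (E : ι → Ω → Prop) :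
    Pr (fun ω => ∃ i ∈ s, E i ω) ≤ ∑ i ∈ s, Pr (E i) := by
  classical
  unfold Pr
  rw [← Ex_sum]
  apply Ex_mono
  intro ω
  by_cases h : ∃ i ∈ s, E i ω
  · rw [if_pos h]
    obtain ⟨i, hi, h1⟩ := h
    calc (1:ℝ) = if E i ω then 1 else 0 := by rw [if_pos h1]
      _ ≤ _ := by
          refine (le_of_eq ?_).trans (Finset.single_le_sum (f := fun i => if E i ω then (1:ℝ) else 0)
            (fun j _ => by split_ifs <;> norm_num) hi)
          rfl
  · rw [if_neg h]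
    exact Finset.sum_nonneg fun j _ => by split_ifs <;> norm_num

theorem Pr_or_le (E E' : Ω → Prop) : Pr (fun ω => E ω ∨ E' ω) ≤ Pr E + Pr E' := by
  unfold Pr
  rw [← Ex_add]
  apply Ex_mono
  intro ω
  by_cases h1 : E ω <;> by_cases h2 : E' ω <;> simp [h1, h2]

/-- exponential Markov inequality -/
theorem Pr_exp_le (F : Ω → ℝ) (lam W : ℝ) (hl : 0 ≤ lam) :
    Pr (fun ω => W ≤ F ω) ≤ Real.exp (-(lam * W)) * Ex (fun ω => Real.exp (lam * F ω)) := by
  unfold Pr
  rw [← Ex_mul_left]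
  apply Ex_mono
  intro ω
  by_cases h : W ≤ F ω
  · rw [if_pos h, ← Real.exp_add]
    apply Real.one_le_exp
    nlinarith
  · rw [if_neg h]
    positivity

theorem Pr_not [Nonempty Ω] (E : Ω → Prop) : Pr (fun ω => ¬ E ω) = 1 - Pr E := by
  unfold Pr
  have h1 : Ex (fun _ : Ω => (1:ℝ)) = 1 := Ex_const 1
  have h2 := Ex_sub (fun _ : Ω => (1:ℝ)) (fun ω => by classical exact if E ω then (1:ℝ) else 0)
  rw [h1] at h2
  refine Eq.trans ?_ (h2.trans ?_)
  · congr 1
    funext ω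
    by_cases h : E ω <;> simp [h]
  · rfl

end Ex

section chain
variable {d n N : ℕ}

theorem IsCh.subset {u : Lab d n N} {C C' : Finset (Pt d n)} (h : IsCh u C) (h' : C' ⊆ C) :
    IsCh u C' := fun p hp q hq => h p (h' hp) q (h' hq)

theorem isCh_empty (u : Lab d n N) : IsCh u ∅ := fun p hp => absurd hp (Finset.notMem_empty p)

theorem card_le_lg {u : Lab d n N} {C X : Finset (Pt d n)} (h : IsCh u C) (h' : C ⊆ X) :
    C.card ≤ lg u X := by
  classical
  unfold lg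
  apply Finset.le_sup (f := Finset.card)
  rw [Finset.mem_filter, Finset.mem_powerset]
  exact ⟨h', h⟩

theorem exists_lg (u : Lab d n N) (X : Finset (Pt d n)) :
    ∃ C ⊆ X, IsCh u C ∧ C.card = lg u X := by
  classical
  unfold lg
  obtain ⟨C, hC, h⟩ := Finset.exists_mem_eq_sup (X.powerset.filter (fun C => IsCh u C))
    ⟨∅, by rw [Finset.mem_filter, Finset.mem_powerset]; exact ⟨Finset.empty_subset _, isCh_empty u⟩⟩
    Finset.card
  rw [Finset.mem_filter, Finset.mem_powerset] at hC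
  exact ⟨C, hC.1, hC.2, h.symm⟩

theorem exists_chain_of_le {u : Lab d n N} {X : Finset (Pt d n)} {m : ℕ} (h : m ≤ lg u X) :
    ∃ C ⊆ X, C.card = m ∧ IsCh u C := by
  obtain ⟨C, h1, h2, h3⟩ := exists_lg u X
  obtain ⟨C', h4, h5⟩ := Finset.exists_subset_card_eq (h.trans_eq h3.symm)
  exact ⟨C', h4.trans h1, h5, h2.subset h4⟩

end chain

section mm

theorem mm_nonneg (k n : ℕ) : 0 ≤ mm k n := by unfold mm; positivity

theorem mm_pow (k n : ℕ) : mm k n ^ (k + 1) = (n : ℝ) ^ k := by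
  unfold mm
  rw [← Real.rpow_natCast, ← Real.rpow_mul (by positivity)]
  have : ((k : ℝ) / ((k : ℝ) + 1)) * ((k + 1 : ℕ) : ℝ) = k := by
    push_cast
    field_simp
  rw [this, Real.rpow_natCast]

theorem mm_tendsto (k : ℕ) (hk : 1 ≤ k) : Filter.Tendsto (mm k) Filter.atTop Filter.atTop := by
  unfold mm
  have h1 : 0 < (k : ℝ) / ((k : ℝ) + 1) := by
    have : (0 : ℝ) < k := by exact_mod_cast hk
    positivity
  exact (tendsto_rpow_atTop h1).comp tendsto_natCast_atTop_atTop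

end mm

end Pool.Agent.Y993.HP
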