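import Pool.Agent.Y993.HP.Base

/-! # Project HP: cells, gaps and the inequality of means -/

set_option autoImplicit false

namespace Pool.Agent.Y993.HP

open Finset

/-- the cell of a label -/
def clM (G M : ℕ) (a : Fin (G * M)) : Fin G := a.divNat

theorem clM_mono (G M : ℕ) : Monotone (clM G M) := by
  intro a b hab
  unfold clM
  rw [Fin.le_def, Fin.coe_divNat, Fin.coe_divNat]
  exact Nat.div_le_div_right hab

theorem card_cells (G M : ℕ) (V : Finset (Fin G)) :
    (univ.filter (fun a : Fin (G * M) => clM G M a ∈ V)).card = V.card * M := by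
  have h : (univ.filter (fun a : Fin (G * M) => clM G M a ∈ V)) =
      (V ×ˢ (univ : Finset (Fin M))).map finProdFinEquiv.toEmbedding := by
    ext a
    rw [Finset.mem_filter, Finset.mem_map_equiv, Finset.mem_product]
    simp [clM, finProdFinEquiv]
  rw [h, Finset.card_map, Finset.card_product, Finset.card_univ, Fintype.card_fin]

/-- the cells of a gap -/
def gapc {G : ℕ} (S : Finset (Fin G)) (j : ℕ) : Finset (Fin G) :=
  univ.filter (fun g => g ∉ S ∧ (S.filter (fun s => s < g)).card = j)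

theorem gap_eq (G M : ℕ) (S : Finset (Fin G)) (j : ℕ) :
    gap (clM G M) S j = univ.filter (fun a : Fin (G * M) => clM G M a ∈ gapc S j) := by
  unfold gap gapc
  ext a
  simp

theorem gap_card (G M : ℕ) (S : Finset (Fin G)) (j : ℕ) :
    (gap (clM G M) S j).card = (gapc S j).card * M := by
  rw [gap_eq, card_cells]

theorem gap_disj {N G : ℕ} (cl : Fin N → Fin G) (S : Finset (Fin G)) {j j' : ℕ} (h : j ≠ j') :
    Disjoint (gap cl S j) (gap cl S j') := by
  rw [Finset.disjoint_left]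
  intro a h1 h2
  unfold gap at h1 h2
  rw [Finset.mem_filter] at h1 h2
  exact h (h1.2.2.symm.trans h2.2.2)

theorem sum_gap {N G : ℕ} (cl : Fin N → Fin G) (S : Finset (Fin G)) (r : ℕ) :
    ∑ j ∈ range r, (gap cl S j).card ≤ N := by
  rw [← Finset.card_biUnion (fun j _ j' _ h => gap_disj cl S h)]
  exact (Finset.card_le_univ _).trans (by simp)

theorem amgm1 (k n : ℕ) {N : ℕ} (I : Fin (k + 1) → Finset (Fin N)) :
    ((n : ℝ) ^ k * wt I) ^ (1 / ((k : ℝ) + 1)) ≤
      mm k n * ∑ i, (1 / ((k : ℝ) + 1)) * sd I i := by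
  have hk : (0 : ℝ) < (k : ℝ) + 1 := by positivity
  have hsd : ∀ i, 0 ≤ sd I i := fun i => by unfold sd; positivity
  have hw : 0 ≤ wt I := Finset.prod_nonneg fun i _ => hsd i
  rw [← mm_pow, Real.mul_rpow (by positivity [mm_nonneg k n]) hw]
  have h1 : (mm k n ^ (k + 1)) ^ (1 / ((k : ℝ) + 1)) = mm k n := by
    rw [← Real.rpow_natCast, ← Real.rpow_mul (mm_nonneg k n)]
    have : ((k + 1 : ℕ) : ℝ) * (1 / ((k : ℝ) + 1)) = 1 := by
      push_cast
      field_simp
    rw [this, Real.rpow_one]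
  rw [h1]
  apply mul_le_mul_of_nonneg_left _ (mm_nonneg k n)
  unfold wt
  rw [← Real.finsetProd_rpow _ _ (fun i _ => hsd i)]
  apply Real.geom_mean_le_arith_mean_weighted
  · intro i _; positivity
  · rw [Finset.sum_const, Finset.card_univ, Fintype.card_fin, nsmul_eq_mul]
    push_cast
    field_simp
  · intro i _; exact hsd i

/-- inequality of means for the gaps -/
theorem amgm (k n r G M : ℕ) (S : Fin (k + 1) → Finset (Fin G)) (hN : 0 < G * M) :
    ∑ j ∈ range r, ((n : ℝ) ^ k * wt (fun i => gap (clM G M) (S i) j)) ^ (1 / ((k : ℝ) + 1)) ≤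
      mm k n := by
  have hk : (0 : ℝ) < (k : ℝ) + 1 := by positivity
  refine (Finset.sum_le_sum fun j _ => amgm1 k n (fun i => gap (clM G M) (S i) j)).trans ?_
  rw [← Finset.mul_sum, Finset.sum_comm]
  have h1 : ∀ i, ∑ j ∈ range r, (1 / ((k : ℝ) + 1)) * sd (fun i => gap (clM G M) (S i) j) i ≤
      1 / ((k : ℝ) + 1) := by
    intro i
    rw [← Finset.mul_sum]
    have h2 : ∑ j ∈ range r, sd (fun i => gap (clM G M) (S i) j) i ≤ 1 := by
      unfold sd
      rw [← Finset.sum_div, div_le_one (by exact_mod_cast hN)]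
      exact_mod_cast sum_gap (clM G M) (S i) r
    calc _ ≤ (1 / ((k : ℝ) + 1)) * 1 := mul_le_mul_of_nonneg_left h2 (by positivity)
      _ = _ := mul_one _
  have h3 : ∑ i : Fin (k + 1), ∑ j ∈ range r,
      (1 / ((k : ℝ) + 1)) * sd (fun i => gap (clM G M) (S i) j) i ≤ 1 := by
    refine (Finset.sum_le_sum fun i _ => h1 i).trans ?_
    rw [Finset.sum_const, Finset.card_univ, Fintype.card_fin, nsmul_eq_mul]
    push_cast
    rw [mul_one_div_cancel hk.ne']
  calc _ ≤ mm k n * 1 := mul_le_mul_of_nonneg_left h3 (mm_nonneg k n)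
    _ = _ := mul_one _

/-- one choice of cuts -/
theorem one_S (hN : S_NAZ) (k n G M L r : ℕ) (A : Finset (Pt (k + 1) n))
    (S : Fin (k + 1) → Finset (Fin G)) (lam c ε W : ℝ) (hl : 0 ≤ lam) (hc : 0 ≤ c)
    (hG : 0 < G * M)
    (hS : ∀ j, Ex (fun u : Lab (k + 1) n (G * M) =>
      Real.exp (lam * (zz A (fun i => gap (clM G M) (S i) j) L u : ℝ))) ≤
      Real.exp (lam * (c * ((n : ℝ) ^ k * wt (fun i => gap (clM G M) (S i) j)) ^
        (1 / ((k : ℝ) + 1)) + 2 * ε * L))) :
    Pr (fun u : Lab (k + 1) n (G * M) =>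
      W ≤ ∑ j ∈ range (r + 1), (zz A (fun i => gap (clM G M) (S i) j) L u : ℝ)) ≤
      Real.exp (-(lam * W) + lam * (c * mm k n + 2 * ε * L * (r + 1))) := by
  refine (Pr_exp_le _ lam W hl).trans ?_
  rw [Real.exp_add]
  apply mul_le_mul_of_nonneg_left _ (Real.exp_pos _).le
  have h1 := (hN (k + 1) n (G * M) L (r + 1) A (fun j i => gap (clM G M) (S i) (j : ℕ)) hG
    (fun i j j' h => gap_disj _ _ (fun h' => h (Fin.ext h')))).1 lam hl
  simp only [Finset.sum_range]
  refine h1.trans ?_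
  refine (Finset.prod_le_prod (s := (Finset.univ : Finset (Fin (r + 1))))
    (fun j _ => Ex_nonneg fun u => (Real.exp_pos _).le)
    (fun (j : Fin (r + 1)) _ => hS (j : ℕ))).trans ?_
  rw [← Real.exp_sum]
  apply Real.exp_le_exp.mpr
  rw [← Finset.mul_sum]
  apply mul_le_mul_of_nonneg_left _ hl
  rw [Finset.sum_add_distrib, ← Finset.mul_sum, Finset.sum_const, Finset.card_univ,
    Fintype.card_fin, nsmul_eq_mul]
  have h2 := amgm k n (r + 1) G M S hG
  rw [Finset.sum_range] at h2
  have h3 := mul_le_mul_of_nonneg_left h2 hc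
  push_cast
  nlinarith

end Pool.Agent.Y993.HP
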