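import Pool.Agent.Y993.HP.Cells

/-! # Project HP: the upper bound -/

set_option autoImplicit false

namespace Pool.Agent.Y993.HP

open Finset Filter

theorem inv_fact_le (b : ℕ) (hb : 1 ≤ b) : 1 / (b.factorial : ℝ) ≤ (Real.exp 1 / b) ^ b := by
  have h1 : (b : ℝ) ^ b / (b.factorial : ℝ) ≤ Real.exp b :=
    Real.pow_div_factorial_le_exp (b : ℝ) (Nat.cast_nonneg b) b
  have hb' : (0 : ℝ) < b := by exact_mod_cast hb
  have h2 : Real.exp b = Real.exp 1 ^ b := by
    rw [← Real.exp_nat_mul, mul_one]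
  rw [div_pow, ← h2, le_div_iff₀ (by positivity)]
  calc 1 / (b.factorial : ℝ) * (b : ℝ) ^ b = (b : ℝ) ^ b / (b.factorial : ℝ) := by ring
    _ ≤ _ := h1

/-- the event of the first alternative -/
theorem bad_le (hFM : S_FM) (hC : S_CARD) (k n G M L t b H : ℕ) (B0 η θ T m : ℝ)
    (A : Finset (Pt (k + 1) n)) (hA : IsPerm A) (hn : 1 ≤ n) (hG : 0 < G * M)
    (hm : m = mm k n) (hm1 : 1 ≤ m) (hη : 0 < η) (hθ : 0 < θ) (hB0 : 0 < B0) (hT : 0 < T)
    (hL : 1 ≤ L) (ht : θ * L / 2 ≤ t) (hH : (H : ℝ) ≤ B0 * m) (hb : η * m ≤ b)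
    (hGT : T * m / L ≤ G)
    (hTb : 2 * B0 * Real.exp 1 ^ (k + 1) * Real.exp 1 ≤ T * (θ * η ^ (k + 1)))
    (i : Fin (k + 1)) (U : Finset (Fin G)) (hU : U.card * t ≤ H) :
    Pr (fun u : Lab (k + 1) n (G * M) => ∃ C ⊆ A, C.card = b ∧ IsCh u C ∧
      ∀ p ∈ C, clM G M (u (i, p i)) ∈ U) ≤ Real.exp (-(b : ℝ)) := by
  have hm0 : 0 < m := by linarith
  have hL' : (0 : ℝ) < L := by exact_mod_cast hL
  have hb1 : (0 : ℝ) < b := lt_of_lt_of_le (by positivity) hb
  have hb1' : 1 ≤ b := by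
    have : 0 < b := by exact_mod_cast hb1
    omega
  have ht0 : (0 : ℝ) < t := lt_of_lt_of_le (by positivity) ht
  have hG0 : (0 : ℝ) < G := lt_of_lt_of_le (by positivity) hGT
  have hM0 : (0 : ℝ) < M := by
    have : 0 < M := Nat.pos_of_mul_pos_left hG
    exact_mod_cast this
  have h1 := hFM (k + 1) n (G * M) b A i
    (univ.filter (fun a : Fin (G * M) => clM G M a ∈ U)) hG
  have h2 : Pr (fun u : Lab (k + 1) n (G * M) => ∃ C ⊆ A, C.card = b ∧ IsCh u C ∧
      ∀ p ∈ C, clM G M (u (i, p i)) ∈ U) ≤ Pr (fun u : Lab (k + 1) n (G * M) =>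
      ∃ C ⊆ A, C.card = b ∧ IsCh u C ∧ ∀ p ∈ C, u (i, p i) ∈
        univ.filter (fun a : Fin (G * M) => clM G M a ∈ U)) := by
    apply Pr_mono
    rintro u ⟨C, c1, c2, c3, c4⟩
    refine ⟨C, c1, c2, c3, fun p hp => ?_⟩
    rw [Finset.mem_filter]
    exact ⟨Finset.mem_univ _, c4 p hp⟩
  refine h2.trans (h1.trans ?_)
  rw [card_cells, (hC k n A hn hA).1]
  have e1 : ((U.card * M : ℕ) : ℝ) / ((G * M : ℕ) : ℝ) = (U.card : ℝ) / G := by
    push_cast
    rw [mul_div_mul_right _ _ hM0.ne']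
  rw [e1]
  have e2 : (((n ^ k : ℕ) : ℝ)) = m ^ (k + 1) := by
    rw [hm, mm_pow]
    push_cast
    rfl
  rw [e2]
  have e3 : (U.card : ℝ) / G ≤ 2 * B0 / (θ * T) := by
    have h3 : (U.card : ℝ) * t ≤ B0 * m := by
      refine le_trans ?_ hH
      exact_mod_cast hU
    have h4 : (U.card : ℝ) ≤ 2 * B0 * m / (θ * L) := by
      rw [le_div_iff₀ (by positivity)]
      have h5 : (U.card : ℝ) * (θ * L / 2) ≤ U.card * t :=
        mul_le_mul_of_nonneg_left ht (Nat.cast_nonneg _)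
      linarith
    calc (U.card : ℝ) / G ≤ (2 * B0 * m / (θ * L)) / (T * m / L) := by
          apply div_le_div₀ (by positivity) h4 (by positivity) hGT
      _ = 2 * B0 / (θ * T) := by
          field_simp
  have e4 : 1 / (b.factorial : ℝ) ≤ (Real.exp 1 / b) ^ b := inv_fact_le b hb1'
  have e5 : Real.exp 1 / b ≤ Real.exp 1 / (η * m) :=
    div_le_div_of_nonneg_left (Real.exp_pos 1).le (by positivity) hb
  have e6 : m ^ (k + 1) * ((U.card : ℝ) / G) * (Real.exp 1 / b) ^ (k + 1) ≤ Real.exp (-1) := by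
    calc m ^ (k + 1) * ((U.card : ℝ) / G) * (Real.exp 1 / b) ^ (k + 1)
        ≤ m ^ (k + 1) * (2 * B0 / (θ * T)) * (Real.exp 1 / (η * m)) ^ (k + 1) := by
          apply mul_le_mul
          · exact mul_le_mul_of_nonneg_left e3 (by positivity)
          · exact pow_le_pow_left₀ (by positivity) e5 _
          · positivity
          · positivity
      _ = (2 * B0 * Real.exp 1 ^ (k + 1)) / (T * (θ * η ^ (k + 1))) := by
          rw [div_pow, mul_pow]
          field_simp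
      _ ≤ Real.exp (-1) := by
          rw [div_le_iff₀ (by positivity), Real.exp_neg]
          have h6 := Real.exp_pos 1
          rw [inv_mul_eq_div, le_div_iff₀ h6]
          exact hTb
  calc (m ^ (k + 1)) ^ b * ((U.card : ℝ) / G) ^ b / (b.factorial : ℝ) ^ (k + 1)
      = (m ^ (k + 1)) ^ b * ((U.card : ℝ) / G) ^ b * (1 / (b.factorial : ℝ)) ^ (k + 1) := by
        rw [one_div, inv_pow, div_eq_mul_inv]
    _ ≤ (m ^ (k + 1)) ^ b * ((U.card : ℝ) / G) ^ b * ((Real.exp 1 / b) ^ b) ^ (k + 1) := by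
        apply mul_le_mul_of_nonneg_left _ (by positivity)
        exact pow_le_pow_left₀ (by positivity) e4 _
    _ = (m ^ (k + 1) * ((U.card : ℝ) / G) * (Real.exp 1 / b) ^ (k + 1)) ^ b := by
        rw [mul_pow, mul_pow, ← pow_mul (Real.exp 1 / (b:ℝ)) b (k + 1), mul_comm b (k + 1), pow_mul]
    _ ≤ (Real.exp (-1)) ^ b := pow_le_pow_left₀ (by positivity) e6 _
    _ = Real.exp (-(b : ℝ)) := by
        rw [← Real.exp_nat_mul]
        ring_nf

/-- analytic part: everything tends to zero -/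
theorem final_small (D η x e δ : ℝ) (hη : 0 < η) (hx : 0 < x) (hδ : 0 < δ) :
    ∃ m0 : ℝ, ∀ m : ℝ, m0 ≤ m →
      D * Real.exp (e - η * m) + Real.exp (D - x * m) ≤ δ := by
  have h1 : Tendsto (fun m : ℝ => D * Real.exp (e - η * m) + Real.exp (D - x * m)) atTop
      (nhds (D * 0 + 0)) := by
    apply Tendsto.add
    · apply Tendsto.const_mul
      apply Real.tendsto_exp_atBot.comp
      apply tendsto_atBot_add_const_left atTop e
      exact tendsto_neg_atTop_atBot.comp (tendsto_id.const_mul_atTop hη)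
    · apply Real.tendsto_exp_atBot.comp
      apply tendsto_atBot_add_const_left atTop D
      exact tendsto_neg_atTop_atBot.comp (tendsto_id.const_mul_atTop hx)
  rw [mul_zero, add_zero] at h1
  have h2 := (h1.eventually (gt_mem_nhds hδ))
  obtain ⟨m0, h3⟩ := Filter.eventually_atTop.mp h2
  exact ⟨m0, fun m hm => (h3 m hm).le⟩

end Pool.Agent.Y993.HP
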