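import Pool.Agent.Y993.HP.Up

/-! # Project HP: the upper bound, assembly -/

set_option autoImplicit false

namespace Pool.Agent.Y993.HP

open Finset Filter

theorem up1 (hN : S_NAZ) (hSB : S_SB) (hFM : S_FM) (hCut : S_CUT) (hC : S_CARD) : S_UP := by
  intro k c e0 hk hc he hg δ hδ
  set D : ℝ := (k : ℝ) + 1 with hD
  have hD0 : 0 < D := by rw [hD]; positivity
  have hD1 : 1 ≤ D := by rw [hD]; linarith [(Nat.cast_nonneg k : (0:ℝ) ≤ k)]
  set B0 : ℝ := c + e0 + 1 with hB0
  have hB : 0 < B0 := by rw [hB0]; positivity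
  have hB1 : 1 ≤ B0 := by rw [hB0]; linarith
  set η : ℝ := e0 / (8 * D) with hη
  have hη0 : 0 < η := by rw [hη]; positivity
  set θ : ℝ := e0 / (8 * D * B0) with hθ
  have hθ0 : 0 < θ := by rw [hθ]; positivity
  have hθ1 : θ ≤ 1 := by
    rw [hθ, div_le_one (by positivity)]
    nlinarith
  set ε1 : ℝ := e0 / (16 * B0) with hε1
  have hε10 : 0 < ε1 := by rw [hε1]; positivity
  obtain ⟨T, hT1, hT2⟩ : ∃ T : ℕ, 1 ≤ T ∧
      2 * B0 * Real.exp 1 ^ (k + 1) * Real.exp 1 / (θ * η ^ (k + 1)) ≤ T := by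
    obtain ⟨T, hT⟩ := exists_nat_ge (2 * B0 * Real.exp 1 ^ (k + 1) * Real.exp 1 / (θ * η ^ (k + 1)))
    exact ⟨max 1 T, le_max_left _ _, hT.trans (by exact_mod_cast le_max_right 1 T)⟩
  have hTpos : (0 : ℝ) < T := by exact_mod_cast hT1
  have hT3 : 2 * B0 * Real.exp 1 ^ (k + 1) * Real.exp 1 ≤ T * (θ * η ^ (k + 1)) := by
    rwa [div_le_iff₀ (by positivity)] at hT2
  set a : ℝ := 8 * D * T / e0 with ha
  have ha0 : 0 < a := by rw [ha]; positivity
  obtain ⟨L0, hL0⟩ := hSB k T c ε1 a hk hT1 hc hε10 ha0 hg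
  obtain ⟨L, hL1, hL2, hL3, hL4⟩ : ∃ L : ℕ, L0 ≤ L ∧ 1 ≤ L ∧ 2 / θ ≤ (L : ℝ) ∧
      2 * T / η ≤ (L : ℝ) := by
    obtain ⟨l1, h1⟩ := exists_nat_ge (2 / θ)
    obtain ⟨l2, h2⟩ := exists_nat_ge (2 * T / η)
    refine ⟨max (max L0 1) (max l1 l2), (le_max_left _ _).trans (le_max_left _ _),
      (le_max_right _ _).trans (le_max_left _ _), h1.trans ?_, h2.trans ?_⟩
    · exact_mod_cast (le_max_left l1 l2).trans (le_max_right _ _)
    · exact_mod_cast (le_max_right l1 l2).trans (le_max_right _ _)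
  obtain ⟨n1, hn1⟩ := hL0 L hL1 hL2
  have hLpos : (0 : ℝ) < L := by exact_mod_cast hL2
  have hθL : 2 ≤ θ * L := by
    rw [div_le_iff₀ hθ0] at hL3
    linarith
  have hηL : 2 * T ≤ η * L := by
    rw [div_le_iff₀ hη0] at hL4
    linarith
  set t : ℕ := ⌊θ * L⌋₊ with ht
  have ht3 : (t : ℝ) ≤ θ * L := Nat.floor_le (by positivity)
  have ht4 : θ * L - 1 < t := by
    have := Nat.lt_floor_add_one (θ * L)
    linarith
  have ht2 : θ * L / 2 ≤ t := by linarith
  have ht1 : 1 ≤ t := by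
    have : (0 : ℝ) < t := by linarith
    have : 0 < t := by exact_mod_cast this
    omega
  have htL : t ≤ L := by
    have : (t : ℝ) ≤ L := ht3.trans (by nlinarith)
    exact_mod_cast this
  obtain ⟨m0, hm0⟩ := final_small D (η / 2) (D * T / L) 1 δ (by positivity) (by positivity) hδ
  have hev : ∀ᶠ n in atTop, max (max 1 m0) (max ((L : ℝ) / B0) (4 * D / e0)) ≤ mm k n :=
    (mm_tendsto k hk).eventually_ge_atTop _
  obtain ⟨n2, hn2⟩ := Filter.eventually_atTop.mp hev
  refine ⟨max n1 (max n2 1), fun n hn A hA => ?_⟩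
  have hnn1 : n1 ≤ n := (le_max_left _ _).trans hn
  have hnn2 : n2 ≤ n := ((le_max_left _ _).trans (le_max_right _ _)).trans hn
  have hnn3 : 1 ≤ n := ((le_max_right _ _).trans (le_max_right _ _)).trans hn
  have hmall := hn2 n hnn2
  set m : ℝ := mm k n with hm
  have hm1 : 1 ≤ m := ((le_max_left _ _).trans (le_max_left _ _)).trans hmall
  have hmm0 : m0 ≤ m := ((le_max_right _ _).trans (le_max_left _ _)).trans hmall
  have hmL : (L : ℝ) ≤ B0 * m := by
    have : (L : ℝ) / B0 ≤ m := ((le_max_left _ _).trans (le_max_right _ _)).trans hmall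
    rw [div_le_iff₀ hB] at this
    linarith
  have hmD : D ≤ e0 / 4 * m := by
    have : 4 * D / e0 ≤ m := ((le_max_right _ _).trans (le_max_right _ _)).trans hmall
    rw [div_le_iff₀ he] at this
    linarith
  have hmpos : 0 < m := by linarith
  obtain ⟨G, hG⟩ : ∃ G : ℕ, G = ⌈(T : ℝ) * m / L⌉₊ := ⟨_, rfl⟩
  have hG1 : (T : ℝ) * m / L ≤ G := by rw [hG]; exact Nat.le_ceil _
  have hG2 : (G : ℝ) ≤ T * m / L + 1 := by
    rw [hG]
    exact (Nat.ceil_lt_add_one (by positivity)).le
  have hG0 : 0 < G := by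
    have : (0 : ℝ) < G := lt_of_lt_of_le (by positivity) hG1
    exact_mod_cast this
  obtain ⟨M, hM⟩ : ∃ M : ℕ, M = 2 * (k + 1) * n ^ 3 := ⟨_, rfl⟩
  have hM0 : 0 < M := by rw [hM]; positivity
  have hGM : 0 < G * M := Nat.mul_pos hG0 hM0
  have hM3 : n ^ 3 ≤ M := by
    rw [hM]
    exact Nat.le_mul_of_pos_left _ (by positivity)
  have hM2 : 2 * (k + 1) * n ^ 2 ≤ G * M := by
    rw [hM]
    calc 2 * (k + 1) * n ^ 2 ≤ 2 * (k + 1) * n ^ 3 :=
          Nat.mul_le_mul_left _ (Nat.pow_le_pow_right hnn3 (by norm_num))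
      _ ≤ G * (2 * (k + 1) * n ^ 3) := Nat.le_mul_of_pos_left _ hG0
  refine ⟨G * M, hGM, hM2, ?_⟩
  obtain ⟨H, hH⟩ : ∃ H : ℕ, H = ⌈(c + e0) * m⌉₊ := ⟨_, rfl⟩
  have hH1 : (c + e0) * m ≤ H := by rw [hH]; exact Nat.le_ceil _
  have hH2 : (H : ℝ) ≤ B0 * m := by
    rw [hH, hB0]
    have := (Nat.ceil_lt_add_one (a := (c + e0) * m) (by positivity)).le
    linarith
  obtain ⟨b, hb⟩ : ∃ b : ℕ, b = ⌈η * m⌉₊ := ⟨_, rfl⟩
  have hb1 : η * m ≤ b := by rw [hb]; exact Nat.le_ceil _
  have hb2 : (b : ℝ) ≤ η * m + 1 := by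
    rw [hb]
    exact (Nat.ceil_lt_add_one (by positivity)).le
  classical
  -- the two families of events
  let s1 : Finset (Fin (k + 1) × Finset (Fin G)) :=
    Finset.univ.filter (fun z => z.2.card * t ≤ H)
  let E1 : Fin (k + 1) × Finset (Fin G) → Lab (k + 1) n (G * M) → Prop := fun z u =>
    ∃ C ⊆ A, C.card = b ∧ IsCh u C ∧ ∀ p ∈ C, clM G M (u (z.1, p z.1)) ∈ z.2
  let s2 : Finset (Fin (k + 1) → Finset (Fin G)) :=
    Finset.univ.filter (fun S => (S 0).card * L ≤ H)
  let E2 : (Fin (k + 1) → Finset (Fin G)) → Lab (k + 1) n (G * M) → Prop := fun S u =>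
    (H : ℝ) - D * b - D * (S 0).card * t ≤
      ∑ j ∈ range ((S 0).card + 1), (zz A (fun i => gap (clM G M) (S i) j) L u : ℝ)
  have hinc : ∀ u : Lab (k + 1) n (G * M), (c + e0) * m ≤ (lg u A : ℝ) →
      (∃ z ∈ s1, E1 z u) ∨ (∃ S ∈ s2, E2 S u) := by
    intro u hu
    have h1 : H ≤ lg u A := by
      rw [hH]
      exact Nat.ceil_le.mpr hu
    obtain ⟨C, c1, c2, c3⟩ := exists_chain_of_le h1
    rcases hCut (k + 1) n (G * M) G L t b H A (clM G M) u (by omega) (clM_mono G M) ht1 htL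
      ⟨C, c1, c2, c3⟩ with ⟨i, U, h2, h3⟩ | ⟨S, r, h2, h3, h4⟩
    · left
      refine ⟨(i, U), ?_, h3⟩
      simp only [s1, Finset.mem_filter, Finset.mem_univ, true_and]
      exact h2
    · right
      have hr : (S 0).card = r := h2 0
      refine ⟨S, ?_, ?_⟩
      · simp only [s2, Finset.mem_filter, Finset.mem_univ, true_and]
        rw [hr]
        exact h3
      · simp only [E2]
        rw [hr]
        have h5 : (H : ℝ) ≤ (((k + 1) * b + (k + 1) * r * t +
            ∑ j ∈ range (r + 1), zz A (fun i => gap (clM G M) (S i) j) L u : ℕ) : ℝ) := by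
          exact_mod_cast h4
        push_cast at h5
        rw [hD]
        linarith
  refine (Pr_mono hinc).trans ((Pr_or_le _ _).trans ?_)
  have p1 : Pr (fun u => ∃ z ∈ s1, E1 z u) ≤ D * Real.exp (1 - η / 2 * m) := by
    refine (Pr_exists_le s1 E1).trans ?_
    have h1 : ∀ z ∈ s1, Pr (E1 z) ≤ Real.exp (-(η * m)) := by
      intro z hz
      simp only [s1, Finset.mem_filter, Finset.mem_univ, true_and] at hz
      refine (bad_le hFM hC k n G M L t b H B0 η θ T m A hA hnn3 hGM hm hm1 hη0 hθ0 hB hTpos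
        hL2 ht2 hH2 hb1 hG1 hT3 z.1 z.2 hz).trans ?_
      exact Real.exp_le_exp.mpr (by linarith)
    refine (Finset.sum_le_card_nsmul s1 _ _ h1).trans ?_
    rw [nsmul_eq_mul]
    have h2 : (s1.card : ℝ) ≤ D * Real.exp (T * m / L + 1) := by
      have h3 : s1.card ≤ (k + 1) * 2 ^ G := by
        refine (Finset.card_le_univ _).trans ?_
        rw [Fintype.card_prod, Fintype.card_fin, Fintype.card_finset, Fintype.card_fin]
      have h4 : (s1.card : ℝ) ≤ ((k : ℝ) + 1) * 2 ^ G := by exact_mod_cast h3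
      refine h4.trans (mul_le_mul_of_nonneg_left ?_ hD0.le)
      calc (2 : ℝ) ^ G ≤ (Real.exp 1) ^ G :=
            pow_le_pow_left₀ (by norm_num) (by linarith [Real.add_one_le_exp (1:ℝ)]) _
        _ = Real.exp G := by rw [← Real.exp_nat_mul, mul_one]
        _ ≤ _ := Real.exp_le_exp.mpr hG2
    calc (s1.card : ℝ) * Real.exp (-(η * m)) ≤
          D * Real.exp (T * m / L + 1) * Real.exp (-(η * m)) :=
          mul_le_mul_of_nonneg_right h2 (Real.exp_pos _).le
      _ = D * Real.exp (T * m / L + 1 + -(η * m)) := by rw [mul_assoc, ← Real.exp_add]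
      _ ≤ _ := by
          apply mul_le_mul_of_nonneg_left _ hD0.le
          apply Real.exp_le_exp.mpr
          have h5 : T * m / L ≤ η / 2 * m := by
            rw [div_le_iff₀ hLpos]
            nlinarith
          linarith
  have p2 : Pr (fun u => ∃ S ∈ s2, E2 S u) ≤ Real.exp (D - D * T / L * m) := by
    refine (Pr_exists_le s2 E2).trans ?_
    have h1 : ∀ S ∈ s2, Pr (E2 S) ≤ Real.exp (-(2 * D * T / L * m)) := by
      intro S hS
      simp only [s2, Finset.mem_filter, Finset.mem_univ, true_and] at hS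
      set r := (S 0).card with hr
      have hrL : (r : ℝ) * L ≤ H := by exact_mod_cast hS
      have h2 := one_S hN k n G M L r A S (a / L) c ε1 ((H : ℝ) - D * b - D * r * t)
        (by positivity) hc.le hGM (fun j => hn1 n hnn1 G M A
          (fun i => gap (clM G M) (S i) j) hG hM3 hA
          (fun i => ⟨(gapc (S i) j).card, gap_card G M (S i) j⟩))
      refine h2.trans (Real.exp_le_exp.mpr ?_)
      have h3 : D * r * t ≤ e0 / 8 * m := by
        have : (r : ℝ) * t ≤ θ * (B0 * m) := by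
          calc (r : ℝ) * t ≤ r * (θ * L) := mul_le_mul_of_nonneg_left ht3 (Nat.cast_nonneg _)
            _ = θ * (r * L) := by ring
            _ ≤ θ * (B0 * m) := mul_le_mul_of_nonneg_left (hrL.trans hH2) hθ0.le
        calc D * r * t = D * (r * t) := by ring
          _ ≤ D * (θ * (B0 * m)) := mul_le_mul_of_nonneg_left this hD0.le
          _ = e0 / 8 * m := by rw [hθ]; field_simp
      have h4 : D * b ≤ e0 / 8 * m + D := by
        calc D * b ≤ D * (η * m + 1) := mul_le_mul_of_nonneg_left hb2 hD0.le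
          _ = e0 / 8 * m + D := by rw [hη]; field_simp
      have h5 : 2 * ε1 * L * (r + 1) ≤ e0 / 4 * m := by
        calc 2 * ε1 * L * (r + 1) = 2 * ε1 * (r * L + L) := by ring
          _ ≤ 2 * ε1 * (B0 * m + B0 * m) :=
              mul_le_mul_of_nonneg_left (by linarith) (by positivity)
          _ = e0 / 4 * m := by rw [hε1]; field_simp; ring
      have h6 : -((a / L) * ((H : ℝ) - D * b - D * r * t)) +
          a / L * (c * mm k n + 2 * ε1 * L * (r + 1)) ≤ (a / L) * (-(e0 / 4 * m)) := by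
        have h7 : -((a / L) * ((H : ℝ) - D * b - D * r * t)) +
          a / L * (c * mm k n + 2 * ε1 * L * (r + 1)) =
          (a / L) * (-((H : ℝ) - D * b - D * r * t) + (c * m + 2 * ε1 * L * (r + 1))) := by
          rw [← hm]; ring
        rw [h7]
        apply mul_le_mul_of_nonneg_left _ (by positivity)
        nlinarith
      refine h6.trans (le_of_eq ?_)
      rw [ha]
      field_simp
      ring
    refine (Finset.sum_le_card_nsmul s2 _ _ h1).trans ?_
    rw [nsmul_eq_mul]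
    have h2 : (s2.card : ℝ) ≤ Real.exp (D * (T * m / L + 1)) := by
      have h3 : s2.card ≤ (2 ^ G) ^ (k + 1) := by
        refine (Finset.card_le_univ _).trans ?_
        rw [Fintype.card_fun, Fintype.card_fin, Fintype.card_finset, Fintype.card_fin]
      have h4 : (s2.card : ℝ) ≤ ((2 : ℝ) ^ G) ^ (k + 1) := by exact_mod_cast h3
      refine h4.trans ?_
      calc ((2 : ℝ) ^ G) ^ (k + 1) ≤ (Real.exp (T * m / L + 1)) ^ (k + 1) := by
            apply pow_le_pow_left₀ (by positivity)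
            calc (2 : ℝ) ^ G ≤ (Real.exp 1) ^ G :=
                  pow_le_pow_left₀ (by norm_num) (by linarith [Real.add_one_le_exp (1:ℝ)]) _
              _ = Real.exp G := by rw [← Real.exp_nat_mul, mul_one]
              _ ≤ _ := Real.exp_le_exp.mpr hG2
        _ = _ := by
            rw [← Real.exp_nat_mul, hD]
            push_cast
            rfl
    calc (s2.card : ℝ) * Real.exp (-(2 * D * T / L * m)) ≤
          Real.exp (D * (T * m / L + 1)) * Real.exp (-(2 * D * T / L * m)) :=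
          mul_le_mul_of_nonneg_right h2 (Real.exp_pos _).le
      _ = Real.exp (D * (T * m / L + 1) + -(2 * D * T / L * m)) := by rw [← Real.exp_add]
      _ = _ := by
          congr 1
          field_simp
          ring
  exact (add_le_add p1 p2).trans (hm0 m hmm0)

end Pool.Agent.Y993.HP
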